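import Pool.Agent.H27.ZP.Smap

/-!
# Z+, block (j1): a bad arc contains a bad triple with an oriented certificate
-/

set_option autoImplicit false

open Module

namespace H54ZJ

open H27ZP

/-- the vector of a linear form on the plane -/
def vec (P : (ℝ × ℝ) →ₗ[ℝ] ℝ) : ℝ × ℝ := (P (1, 0), P (0, 1))

lemma apply_eq (P : (ℝ × ℝ) →ₗ[ℝ] ℝ) (v : ℝ × ℝ) : P v = dt (vec P) v := by
  have h : v = v.1 • ((1 : ℝ), (0 : ℝ)) + v.2 • ((0 : ℝ), (1 : ℝ)) := by
    ext <;> simp
  conv_lhs => rw [h]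
  rw [map_add, map_smul, map_smul]
  unfold dt vec
  simp only [smul_eq_mul]
  ring

/-- Cauchy-Binet in the plane -/
lemma crs_mul (P Q : (ℝ × ℝ) →ₗ[ℝ] ℝ) (d e : ℝ × ℝ) :
    crs (vec P) (vec Q) * crs d e = P d * Q e - P e * Q d := by
  rw [apply_eq P d, apply_eq P e, apply_eq Q d, apply_eq Q e]
  unfold crs dt
  ring

lemma crs_vec_zero_left (Q : (ℝ × ℝ) →ₗ[ℝ] ℝ) : crs (vec 0) (vec Q) = 0 := by
  unfold crs vec; simp

lemma crs_vec_zero_right (P : (ℝ × ℝ) →ₗ[ℝ] ℝ) : crs (vec P) (vec 0) = 0 := by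
  unfold crs vec; simp

lemma crs_vec_self (P : (ℝ × ℝ) →ₗ[ℝ] ℝ) : crs (vec P) (vec P) = 0 := by
  unfold crs vec; simp; ring

/-- The six pairs: if the forms are not in the same cyclic order as the points, one of the six
pair values is at least as large. -/
lemma six (a0 b0 a1 b1 a2 b2 : ℝ) (ha : a0 + a1 + a2 = 0) (hb : b0 + b1 + b2 = 0)
    (hdet : a0 * b1 - b0 * a1 ≤ 0) :
    a1 + b2 ≤ b2 ∨ a1 + b2 ≤ a1 ∨ a1 + b2 ≤ a1 - b1 ∨ a1 + b2 ≤ b2 - a2 ∨ a1 + b2 ≤ -b0 ∨
      a1 + b2 ≤ -a0 := by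
  by_contra hc
  push Not at hc
  obtain ⟨h1, h2, h3, h4, h5, h6⟩ := hc
  have k1 : 0 < a1 := by linarith
  have k2 : 0 < b2 := by linarith
  have k3 : b0 < 0 := by linarith
  have k4 : a0 < 0 := by linarith
  have k5 : b1 < a1 := by linarith
  have k6 : a2 < b2 := by linarith
  rcases le_total b1 0 with h | h
  · nlinarith [mul_pos k1 (neg_pos.2 k3), mul_nonneg (neg_nonneg.2 h) (neg_pos.2 k4).le]
  · -- `-a0 < a1 - b0 - b1`
    have k7 : -a0 < a1 - b0 - b1 := by linarith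
    have k8 : 0 < (-b0 - b1) * (a1 - b1) := mul_pos (by linarith) (by linarith)
    nlinarith [mul_le_mul_of_nonneg_right k7.le h]

/-- A certificate for the triple `x0, x1, x2` with respect to `L`. -/
def Cert (L : Set (ℝ × ℝ)) (x0 x1 x2 : ℝ × ℝ) : Prop :=
  ∃ P Q : (ℝ × ℝ) →ₗ[ℝ] ℝ, 0 ≤ crs (vec P) (vec Q) ∧ ∃ al be ga : ℝ,
    (∀ y ∈ L, -P y ≤ al) ∧ (∀ y ∈ L, P y - Q y ≤ be) ∧ (∀ y ∈ L, Q y ≤ ga) ∧
    al + be + ga < P (x1 - x0) + Q (x2 - x1)

lemma cert_of_forms (L : Set (ℝ × ℝ)) (x0 x1 x2 : ℝ × ℝ) (hord : 0 ≤ crs (x1 - x0) (x2 - x0))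
    (f0 f1 f2 : (ℝ × ℝ) →ₗ[ℝ] ℝ) (hf : f0 + f1 + f2 = 0) (H0 H1 H2 : ℝ)
    (h0 : ∀ y ∈ L, f0 y ≤ H0) (h1 : ∀ y ∈ L, f1 y ≤ H1) (h2 : ∀ y ∈ L, f2 y ≤ H2)
    (hS : H0 + H1 + H2 < f0 x0 + f1 x1 + f2 x2) : Cert L x0 x1 x2 := by
  have hv : ∀ v, f0 v + f1 v + f2 v = 0 := by
    intro v
    have := congrArg (fun g : (ℝ × ℝ) →ₗ[ℝ] ℝ => g v) hf
    simpa using this
  rcases le_or_gt 0 (crs (vec f0) (vec f1)) with hc | hc
  · refine ⟨-f0, f2, ?_, H0, H1, H2, ?_, ?_, h2, ?_⟩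
    · have : crs (vec (-f0)) (vec f2) = crs (vec f0) (vec f1) := by
        have e1 := hv (1, 0)
        have e2 := hv (0, 1)
        unfold crs vec
        simp only [LinearMap.neg_apply]
        rw [show f2 (1, 0) = -f0 (1, 0) - f1 (1, 0) by linarith,
          show f2 (0, 1) = -f0 (0, 1) - f1 (0, 1) by linarith]
        ring
      rw [this]; exact hc
    · intro y hy
      simpa using h0 y hy
    · intro y hy
      have := h1 y hy
      have := hv y
      simp only [LinearMap.neg_apply]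
      linarith
    · have e := hv x1
      simp only [LinearMap.neg_apply, map_sub]
      linarith
  · have e0 := hv x0
    have e1 := hv x1
    have e2 := hv x2
    have hdet : f0 (x1 - x0) * f1 (x2 - x0) - f0 (x2 - x0) * f1 (x1 - x0) ≤ 0 := by
      rw [← crs_mul]
      exact mul_nonpos_of_nonpos_of_nonneg hc.le hord
    have hs := six (f0 (x1 - x0)) (f0 (x2 - x0)) (f1 (x1 - x0)) (f1 (x2 - x0)) (f2 (x1 - x0))
      (f2 (x2 - x0)) (hv _) (hv _) hdet
    simp only [map_sub] at hs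
    rcases hs with h | h | h | h | h | h
    · refine ⟨f2, f2, (crs_vec_self _).ge, H0 + H1, 0, H2, ?_, ?_, h2, ?_⟩
      · intro y hy; have := h0 y hy; have := h1 y hy; have := hv y; linarith
      · intro y hy; simp
      · simp only [map_sub]; linarith
    · refine ⟨f1, 0, (crs_vec_zero_right _).ge, H0 + H2, H1, 0, ?_, ?_, ?_, ?_⟩
      · intro y hy; have := h0 y hy; have := h2 y hy; have := hv y; linarith
      · intro y hy; have := h1 y hy; simpa using this
      · intro y hy; simp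
      · simp only [map_sub, LinearMap.zero_apply]; linarith
    · refine ⟨0, -f1, (crs_vec_zero_left _).ge, 0, H1, H0 + H2, ?_, ?_, ?_, ?_⟩
      · intro y hy; simp
      · intro y hy; have := h1 y hy; simpa using this
      · intro y hy; have := h0 y hy; have := h2 y hy; have := hv y
        simp only [LinearMap.neg_apply]; linarith
      · simp only [map_sub, LinearMap.zero_apply, LinearMap.neg_apply]; linarith
    · refine ⟨0, f2, (crs_vec_zero_left _).ge, 0, H0 + H1, H2, ?_, ?_, h2, ?_⟩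
      · intro y hy; simp
      · intro y hy; have := h0 y hy; have := h1 y hy; have := hv y
        simp only [LinearMap.zero_apply]; linarith
      · simp only [map_sub, LinearMap.zero_apply]; linarith
    · refine ⟨-f0, -f0, (crs_vec_self _).ge, H0, 0, H1 + H2, ?_, ?_, ?_, ?_⟩
      · intro y hy; have := h0 y hy; simpa using this
      · intro y hy; simp
      · intro y hy; have := h1 y hy; have := h2 y hy; have := hv y
        simp only [LinearMap.neg_apply]; linarith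
      · simp only [map_sub, LinearMap.neg_apply]; linarith
    · refine ⟨-f0, 0, (crs_vec_zero_right _).ge, H0, H1 + H2, 0, ?_, ?_, ?_, ?_⟩
      · intro y hy; have := h0 y hy; simpa using this
      · intro y hy; have := h1 y hy; have := h2 y hy; have := hv y
        simp only [LinearMap.neg_apply, LinearMap.zero_apply]; linarith
      · intro y hy; simp
      · simp only [map_sub, LinearMap.neg_apply, LinearMap.zero_apply]; linarith

/-- Separation: three points not contained in a translate of `L`. -/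
theorem forms_of_bad (L : Set (ℝ × ℝ)) (hL : IsCompact L) (hconv : Convex ℝ L)
    (hne : L.Nonempty) (x0 x1 x2 : ℝ × ℝ)
    (hbad : ∀ v : ℝ × ℝ, ¬ (x0 - v ∈ L ∧ x1 - v ∈ L ∧ x2 - v ∈ L)) :
    ∃ f0 f1 f2 : (ℝ × ℝ) →ₗ[ℝ] ℝ, f0 + f1 + f2 = 0 ∧ ∃ H0 H1 H2 : ℝ,
      (∀ y ∈ L, f0 y ≤ H0) ∧ (∀ y ∈ L, f1 y ≤ H1) ∧ (∀ y ∈ L, f2 y ≤ H2) ∧
      H0 + H1 + H2 < f0 x0 + f1 x1 + f2 x2 := by
  -- the compact convex set of differences
  let φ : (ℝ × ℝ) × (ℝ × ℝ) × (ℝ × ℝ) → (ℝ × ℝ) × (ℝ × ℝ) :=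
    fun y => ((x1 - y.2.1) - (x0 - y.1), (x2 - y.2.2) - (x0 - y.1))
  have hφc : Continuous φ := by
    fun_prop
  have hcomp : IsCompact (φ '' (L ×ˢ L ×ˢ L)) := (hL.prod (hL.prod hL)).image hφc
  have hcv : Convex ℝ (φ '' (L ×ˢ L ×ˢ L)) := by
    rintro _ ⟨y, hy, rfl⟩ _ ⟨z, hz, rfl⟩ a b ha hb hab
    refine ⟨a • y + b • z, (hconv.prod (hconv.prod hconv)) hy hz ha hb hab, ?_⟩
    have hb' : b = 1 - a := by linarith
    subst hb'
    simp only [φ]
    ext <;> simp <;> ring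
  have h0 : (0 : (ℝ × ℝ) × (ℝ × ℝ)) ∉ φ '' (L ×ˢ L ×ˢ L) := by
    rintro ⟨y, ⟨hy0, hy1, hy2⟩, he⟩
    have e1 : (x1 - y.2.1) - (x0 - y.1) = 0 := congrArg Prod.fst he
    have e2 : (x2 - y.2.2) - (x0 - y.1) = 0 := congrArg Prod.snd he
    apply hbad (x0 - y.1)
    refine ⟨?_, ?_, ?_⟩
    · rw [sub_sub_cancel]; exact hy0
    · rw [← sub_eq_zero.1 e1, sub_sub_cancel]; exact hy1
    · rw [← sub_eq_zero.1 e2, sub_sub_cancel]; exact hy2
  obtain ⟨f, u, hu, hf⟩ := geometric_hahn_banach_point_closed hcv hcomp.isClosed h0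
  rw [map_zero] at hu
  -- the two components
  let F1 : (ℝ × ℝ) →L[ℝ] ℝ := f.comp (ContinuousLinearMap.inl ℝ (ℝ × ℝ) (ℝ × ℝ))
  let F2 : (ℝ × ℝ) →L[ℝ] ℝ := f.comp (ContinuousLinearMap.inr ℝ (ℝ × ℝ) (ℝ × ℝ))
  have hF : ∀ a b, f (a, b) = F1 a + F2 b := by
    intro a b
    simp only [F1, F2, ContinuousLinearMap.comp_apply, ContinuousLinearMap.inl_apply,
      ContinuousLinearMap.inr_apply]
    rw [← map_add]; simp
  let F0 : (ℝ × ℝ) →L[ℝ] ℝ := -F1 - F2
  obtain ⟨y0, hy0, m0⟩ := hL.exists_isMaxOn hne F0.continuous.continuousOn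
  obtain ⟨y1, hy1, m1⟩ := hL.exists_isMaxOn hne F1.continuous.continuousOn
  obtain ⟨y2, hy2, m2⟩ := hL.exists_isMaxOn hne F2.continuous.continuousOn
  refine ⟨(F0 : (ℝ × ℝ) →ₗ[ℝ] ℝ), (F1 : (ℝ × ℝ) →ₗ[ℝ] ℝ), (F2 : (ℝ × ℝ) →ₗ[ℝ] ℝ), ?_,
    F0 y0, F1 y1, F2 y2, ?_, ?_, ?_, ?_⟩
  · ext <;> simp [F0] <;> ring
  · intro y hy; exact m0 hy
  · intro y hy; exact m1 hy
  · intro y hy; exact m2 hy
  · have := hf _ ⟨(y0, y1, y2), ⟨hy0, hy1, hy2⟩, rfl⟩
    simp only [φ, hF] at this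
    have e0 : ∀ v, F0 v = -F1 v - F2 v := fun v => rfl
    simp only [ContinuousLinearMap.coe_coe, e0, map_sub] at this ⊢
    linarith

/-- (j1) for three points in counterclockwise order. -/
theorem cert_of_bad (L : Set (ℝ × ℝ)) (hL : IsCompact L) (hconv : Convex ℝ L)
    (hne : L.Nonempty) (x0 x1 x2 : ℝ × ℝ) (hord : 0 ≤ crs (x1 - x0) (x2 - x0))
    (hbad : ∀ v : ℝ × ℝ, ¬ (x0 - v ∈ L ∧ x1 - v ∈ L ∧ x2 - v ∈ L)) : Cert L x0 x1 x2 := by
  obtain ⟨f0, f1, f2, hf, H0, H1, H2, h0, h1, h2, hS⟩ :=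
    forms_of_bad L hL hconv hne x0 x1 x2 hbad
  exact cert_of_forms L x0 x1 x2 hord f0 f1 f2 hf H0 H1 H2 h0 h1 h2 hS

/-- Helly: a family of points not contained in a translate of `L` contains three such points. -/
theorem exists_bad_three {ι : Type*} (L : Set (ℝ × ℝ)) (hL : IsCompact L) (hconv : Convex ℝ L)
    (x : ι → ℝ × ℝ) (hbad : ∀ v : ℝ × ℝ, ∃ i, x i - v ∉ L) :
    ∃ i j k : ι, ∀ v : ℝ × ℝ, ¬ (x i - v ∈ L ∧ x j - v ∈ L ∧ x k - v ∈ L) := by
  classical
  by_contra hc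
  push Not at hc
  have hfr : finrank ℝ (ℝ × ℝ) = 2 := by simp
  have hne : (⋂ i, {v : ℝ × ℝ | x i - v ∈ L}).Nonempty := by
    apply Convex.helly_theorem_compact' (𝕜 := ℝ)
    · intro i a ha b hb s t hs ht hst
      have h := hconv ha hb hs ht hst
      have e : s • (x i - a) + t • (x i - b) = x i - (s • a + t • b) := by
        have ht' : t = 1 - s := by linarith
        subst ht'
        ext <;> simp <;> ring
      rw [e] at h
      exact h
    · intro i
      have : {v : ℝ × ℝ | x i - v ∈ L} = (fun y => x i - y) '' L := by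
        ext v
        constructor
        · intro hv
          exact ⟨x i - v, hv, by simp⟩
        · rintro ⟨y, hy, rfl⟩
          simpa using hy
      rw [this]
      exact hL.image (by fun_prop)
    · intro I hI
      rw [hfr] at hI
      -- at most three indices
      have key : ∃ i j k : ι, I.Nonempty → I ⊆ {i, j, k} := by
        rcases I.eq_empty_or_nonempty with h | ⟨i0, hi0⟩
        · by_cases hι : Nonempty ι
          · exact ⟨hι.some, hι.some, hι.some, fun h' => by simp [h] at h'⟩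
          · exfalso
            obtain ⟨i, _⟩ := hbad 0
            exact hι ⟨i⟩
        · obtain ⟨J, hJ⟩ : ∃ J : Finset ι, J = I.erase i0 := ⟨_, rfl⟩
          have cJ : J.card ≤ 2 := by rw [hJ, Finset.card_erase_of_mem hi0]; omega
          rcases J.eq_empty_or_nonempty with h | ⟨j0, hj0⟩
          · refine ⟨i0, i0, i0, fun _ a ha => ?_⟩
            by_cases h' : a = i0
            · simp [h']
            · have : a ∈ J := by rw [hJ]; exact Finset.mem_erase.2 ⟨h', ha⟩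
              simp [h] at this
          · have cK : (J.erase j0).card ≤ 1 := by rw [Finset.card_erase_of_mem hj0]; omega
            have : Nonempty ι := ⟨i0⟩
            obtain ⟨k, hk⟩ := Finset.card_le_one_iff_subset_singleton.1 cK
            refine ⟨i0, j0, k, fun _ a ha => ?_⟩
            by_cases h' : a = i0
            · simp [h']
            · have h1 : a ∈ J := by rw [hJ]; exact Finset.mem_erase.2 ⟨h', ha⟩
              by_cases h2 : a = j0
              · simp [h2]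
              · have := hk (Finset.mem_erase.2 ⟨h2, h1⟩)
                simp only [Finset.mem_singleton] at this
                simp [this]
      obtain ⟨i, j, k, hs⟩ := key
      rcases I.eq_empty_or_nonempty with h | h
      · subst h
        exact ⟨0, by simp⟩
      · obtain ⟨v, h1, h2, h3⟩ := hc i j k
        refine ⟨v, ?_⟩
        simp only [Set.mem_iInter, Set.mem_ofPred_eq]
        intro a ha
        have := hs h ha
        simp only [Finset.mem_insert, Finset.mem_singleton] at this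
        rcases this with rfl | rfl | rfl
        · exact h1
        · exact h2
        · exact h3
  obtain ⟨v, hv⟩ := hne
  obtain ⟨i, hi⟩ := hbad v
  exact hi (Set.mem_iInter.1 hv i)

/-- (j1): a family of points in cyclic (counterclockwise) order indexed by a linear order that is
not contained in a translate of `L` has an ordered triple with a certificate. -/
theorem exists_cert {ι : Type*} [LinearOrder ι] (L : Set (ℝ × ℝ)) (hL : IsCompact L)
    (hconv : Convex ℝ L) (hne : L.Nonempty) (x : ι → ℝ × ℝ)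
    (hord : ∀ i j k : ι, i ≤ j → j ≤ k → 0 ≤ crs (x j - x i) (x k - x i))
    (hbad : ∀ v : ℝ × ℝ, ∃ i, x i - v ∉ L) :
    ∃ i j k : ι, i ≤ j ∧ j ≤ k ∧ Cert L (x i) (x j) (x k) := by
  obtain ⟨i, j, k, h⟩ := exists_bad_three L hL hconv x hbad
  have main : ∀ a b c : ι, a ≤ b → b ≤ c →
      (∀ v : ℝ × ℝ, ¬ (x a - v ∈ L ∧ x b - v ∈ L ∧ x c - v ∈ L)) →
      ∃ i j k : ι, i ≤ j ∧ j ≤ k ∧ Cert L (x i) (x j) (x k) := by
    intro a b c hab hbc hv
    exact ⟨a, b, c, hab, hbc, cert_of_bad L hL hconv hne _ _ _ (hord a b c hab hbc) hv⟩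
  rcases le_total i j with h1 | h1 <;> rcases le_total j k with h2 | h2 <;>
    rcases le_total i k with h3 | h3
  · exact main i j k h1 h2 h
  · exact main i j k h1 h2 h
  · exact main i k j h3 h2 (fun v hv => h v ⟨hv.1, hv.2.2, hv.2.1⟩)
  · exact main k i j h3 h1 (fun v hv => h v ⟨hv.2.1, hv.2.2, hv.1⟩)
  · exact main j i k h1 h3 (fun v hv => h v ⟨hv.2.1, hv.1, hv.2.2⟩)
  · exact main j k i h2 h3 (fun v hv => h v ⟨hv.2.2, hv.1, hv.2.1⟩)
  · exact main k j i h2 h1 (fun v hv => h v ⟨hv.2.2, hv.2.1, hv.1⟩)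
  · exact main k j i h2 h1 (fun v hv => h v ⟨hv.2.2, hv.2.1, hv.1⟩)

end H54ZJ
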