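import Pool.Agent.H54.ZJ.Cert

/-!
# Z+, block (j2): the value of the test function on the closed boundary of `L`
-/

set_option autoImplicit false

open Finset Real

namespace H54ZJ

open H27ZP

/-- a nonzero vector has an angle in every half open window of length `2 π` -/
lemma exists_angle (z : ℝ × ℝ) (hz : z ≠ 0) (a : ℝ) :
    ∃ t r : ℝ, a ≤ t ∧ t < a + 2 * π ∧ 0 < r ∧ z = r • uu t := by
  set w : ℂ := ⟨z.1, z.2⟩ with hw
  have hw0 : w ≠ 0 := by
    intro h
    apply hz
    have h1 := congrArg Complex.re h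
    have h2 := congrArg Complex.im h
    simp only [hw, Complex.zero_re, Complex.zero_im] at h1 h2
    exact Prod.ext h1 h2
  refine ⟨toIcoMod two_pi_pos a w.arg, ‖w‖, ?_, ?_, norm_pos_iff.2 hw0, ?_⟩
  · exact (toIcoMod_mem_Ico two_pi_pos a w.arg).1
  · exact (toIcoMod_mem_Ico two_pi_pos a w.arg).2
  · have e1 := Complex.norm_mul_cos_arg w
    have e2 := Complex.norm_mul_sin_arg w
    have c1 : cos (toIcoMod two_pi_pos a w.arg) = cos w.arg := by
      have := self_sub_toIcoDiv_zsmul two_pi_pos a w.arg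
      rw [← this, zsmul_eq_mul, cos_sub_int_mul_two_pi]
    have c2 : sin (toIcoMod two_pi_pos a w.arg) = sin w.arg := by
      have := self_sub_toIcoDiv_zsmul two_pi_pos a w.arg
      rw [← this, zsmul_eq_mul, sin_sub_int_mul_two_pi]
    unfold uu
    rw [c1, c2]
    ext
    · simp only [Prod.smul_mk, smul_eq_mul]
      rw [e1]
    · simp only [Prod.smul_mk, smul_eq_mul]
      rw [e2]

lemma crs_uu (p q x y : ℝ) : crs (p • uu x) (q • uu y) = p * q * sin (y - x) := by
  unfold crs uu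
  simp only [Prod.smul_mk, smul_eq_mul, sin_sub]
  ring

/-- three vectors with sum zero in counterclockwise order: their angles -/
lemma exists_angles (a : ℝ) (z1 z2 z3 : ℝ × ℝ) (hz : z1 + z2 + z3 = 0) (hc : 0 < crs z1 z2) :
    ∃ α β γ p q r : ℝ, a ≤ α ∧ α < a + 2 * π ∧ α < β ∧ β < α + π ∧ β < γ ∧ γ < β + π ∧
      α + π < γ ∧ γ < α + 2 * π ∧ 0 < p ∧ 0 < q ∧ 0 < r ∧ z1 = p • uu α ∧ z2 = q • uu β ∧
      z3 = r • uu γ := by
  have hz3 : z3 = -z1 - z2 := by
    rw [eq_comm, ← sub_eq_zero] at *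
    have : -z1 - z2 - z3 = -(z1 + z2 + z3) := by abel
    rw [this]
    simpa using hz
  have c23 : crs z2 z3 = crs z1 z2 := by
    rw [hz3]; unfold crs; simp only [Prod.fst_sub, Prod.snd_sub, Prod.fst_neg, Prod.snd_neg]; ring
  have c31 : crs z3 z1 = crs z1 z2 := by
    rw [hz3]; unfold crs; simp only [Prod.fst_sub, Prod.snd_sub, Prod.fst_neg, Prod.snd_neg]; ring
  have n1 : z1 ≠ 0 := by rintro rfl; unfold crs at hc; simp at hc
  have n2 : z2 ≠ 0 := by rintro rfl; unfold crs at hc; simp at hc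
  have n3 : z3 ≠ 0 := by
    intro h
    rw [h] at c31
    unfold crs at c31 hc
    simp at c31
    linarith
  obtain ⟨α, p, hα1, hα2, hp, e1⟩ := exists_angle z1 n1 a
  obtain ⟨β, q, hβ1, hβ2, hq, e2⟩ := exists_angle z2 n2 α
  obtain ⟨γ, r, hγ1, hγ2, hr, e3⟩ := exists_angle z3 n3 β
  have s12 : 0 < sin (β - α) := by
    have h := hc
    rw [e1, e2, crs_uu] at h
    exact (mul_pos_iff_of_pos_left (mul_pos hp hq)).1 h
  have s23 : 0 < sin (γ - β) := by
    have h := hc
    rw [← c23, e2, e3, crs_uu] at h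
    exact (mul_pos_iff_of_pos_left (mul_pos hq hr)).1 h
  have s31 : 0 < sin (α - γ) := by
    have h := hc
    rw [← c31, e3, e1, crs_uu] at h
    exact (mul_pos_iff_of_pos_left (mul_pos hr hp)).1 h
  have pp := pi_pos
  -- sin positive on [0, 2 pi) only on (0, pi)
  have key : ∀ x : ℝ, 0 ≤ x → x < 2 * π → 0 < sin x → 0 < x ∧ x < π := by
    intro x h1 h2 h3
    constructor
    · rcases eq_or_lt_of_le h1 with h | h
      · rw [← h] at h3; simp at h3
      · exact h
    · by_contra hx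
      push Not at hx
      have : sin (x - π) = - sin x := sin_sub_pi x
      have h4 : 0 ≤ sin (x - π) := sin_nonneg_of_nonneg_of_le_pi (by linarith) (by linarith)
      linarith
  obtain ⟨k1, k2⟩ := key (β - α) (by linarith) (by linarith) s12
  obtain ⟨k3, k4⟩ := key (γ - β) (by linarith) (by linarith) s23
  -- γ - α in (0, 2 pi), sin (α - γ) > 0
  have k5 : 0 < sin (α - γ + 2 * π) := by rw [sin_add_two_pi]; exact s31
  obtain ⟨k6, k7⟩ := key (α - γ + 2 * π) (by linarith) (by linarith) k5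
  exact ⟨α, β, γ, p, q, r, hα1, hα2, by linarith, by linarith, by linarith, by linarith,
    by linarith, by linarith, hp, hq, hr, e1, e2, e3⟩

section support

variable (l : ℝ → ℝ × ℝ) (hsup : ∀ x y, dt (uu x) (l y) ≤ dt (uu x) (l x))
include hsup

lemma mono_left (a x y : ℝ) (h1 : a ≤ x) (h2 : x ≤ y) (h3 : y ≤ a + π) :
    dt (uu a) (l y) ≤ dt (uu a) (l x) := by
  rcases eq_or_lt_of_le h2 with h | h
  · rw [h]
  rcases eq_or_lt_of_le h3 with h' | h'
  · have := hsup y x
    rw [h', uu_pi, dt_neg_left, dt_neg_left] at this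
    rw [h']
    linarith
  · have a1 : dt (uu x) (l y - l x) ≤ 0 := by rw [dt_sub]; linarith [hsup x y]
    have a2 : 0 ≤ dt (uu y) (l y - l x) := by rw [dt_sub]; linarith [hsup y x]
    have := dt_left a x y h1 h h' _ a1 a2
    rw [dt_sub] at this
    linarith

lemma mono_right (b x y : ℝ) (h1 : b - π ≤ x) (h2 : x ≤ y) (h3 : y ≤ b) :
    dt (uu b) (l x) ≤ dt (uu b) (l y) := by
  rcases eq_or_lt_of_le h2 with h | h
  · rw [h]
  rcases eq_or_lt_of_le h1 with h' | h'
  · have hb : b = x + π := by linarith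
    have := hsup x y
    rw [hb, uu_pi, dt_neg_left, dt_neg_left]
    linarith
  · have a1 : dt (uu x) (l y - l x) ≤ 0 := by rw [dt_sub]; linarith [hsup x y]
    have a2 : 0 ≤ dt (uu y) (l y - l x) := by rw [dt_sub]; linarith [hsup y x]
    have := dt_right b x y h3 h (by linarith) _ a1 a2
    rw [dt_sub] at this
    linarith

end support

/-- clamp -/
noncomputable def cl (a b x : ℝ) : ℝ := max a (min x b)

lemma cl_mono (a b x y : ℝ) (h : x ≤ y) : cl a b x ≤ cl a b y := by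
  unfold cl
  exact max_le_max le_rfl (min_le_min h le_rfl)

lemma cl_ge (a b x : ℝ) : a ≤ cl a b x := le_max_left _ _

lemma cl_le (a b x : ℝ) (h : a ≤ b) : cl a b x ≤ b := max_le h (min_le_right _ _)

lemma cl_of_le (a b x : ℝ) (hab : a ≤ b) (h : x ≤ a) : cl a b x = a := by
  unfold cl
  rw [min_eq_left (by linarith), max_eq_left h]

lemma cl_of_ge (a b x : ℝ) (hab : a ≤ b) (h : b ≤ x) : cl a b x = b := by
  unfold cl
  rw [min_eq_right h, max_eq_right hab]

lemma cl_of_mem (a b x : ℝ) (h1 : a ≤ x) (h2 : x ≤ b) : cl a b x = x := by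
  unfold cl
  rw [min_eq_left h2, max_eq_right h1]

lemma tele (l : ℝ → ℝ × ℝ) (α β γ δ x : ℝ) (h1 : α ≤ β) (h2 : β ≤ γ) (h3 : γ ≤ δ)
    (hx : α ≤ x) (hx' : x ≤ δ) :
    l x = l (cl α β x) + l (cl β γ x) + l (cl γ δ x) - l β - l γ := by
  rcases le_total x β with h | h
  · rw [cl_of_mem α β x hx h, cl_of_le β γ x h2 h, cl_of_le γ δ x h3 (by linarith)]
    abel
  · rcases le_total x γ with h' | h'
    · rw [cl_of_ge α β x h1 h, cl_of_mem β γ x h h', cl_of_le γ δ x h3 h']
      abel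
    · rw [cl_of_ge α β x h1 h, cl_of_ge β γ x h2 h', cl_of_mem γ δ x h' hx']
      abel

/-- the potential of the test function along the boundary -/
noncomputable def pot (P Q : (ℝ × ℝ) →ₗ[ℝ] ℝ) (l : ℝ → ℝ × ℝ) (α β γ x : ℝ) : ℝ :=
  P (l (cl α β x)) + Q (l (cl β γ x))

lemma gg_le_pot (P Q : (ℝ × ℝ) →ₗ[ℝ] ℝ) (l : ℝ → ℝ × ℝ)
    (hsup : ∀ x y, dt (uu x) (l y) ≤ dt (uu x) (l x)) (α β γ p q r : ℝ)
    (h1 : α ≤ β) (h2 : β ≤ γ) (h3 : γ ≤ α + 2 * π) (h4 : β ≤ α + π) (h5 : γ ≤ β + π)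
    (h6 : α + π ≤ γ) (hp : 0 ≤ p) (hq : 0 ≤ q) (hr : 0 ≤ r)
    (e1 : vec (-P) = p • uu α) (e2 : vec (P - Q) = q • uu β) (e3 : vec Q = r • uu γ)
    (x y : ℝ) (hx : α ≤ x) (hxy : x ≤ y) (hy : y ≤ α + 2 * π) :
    gg P Q (l y - l x) ≤ pot P Q l α β γ y - pot P Q l α β γ x := by
  have dsmul : ∀ (c : ℝ) (w v : ℝ × ℝ), dt (c • w) v = c * dt w v := by
    intro c w v; unfold dt; simp only [Prod.smul_fst, Prod.smul_snd, smul_eq_mul]; ring
  have f1 : ∀ v, P v = -(p * dt (uu α) v) := by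
    intro v
    have := apply_eq (-P) v
    rw [e1, dsmul, LinearMap.neg_apply] at this
    linarith
  have f2 : ∀ v, P v - Q v = q * dt (uu β) v := by
    intro v
    have := apply_eq (P - Q) v
    rw [e2, dsmul, LinearMap.sub_apply] at this
    linarith
  have f3 : ∀ v, Q v = r * dt (uu γ) v := by
    intro v
    have := apply_eq Q v
    rw [e3, dsmul] at this
    linarith
  set δ := α + 2 * π with hδ
  have f1' : ∀ v, P v = -(p * dt (uu δ) v) := by
    intro v; rw [hδ, uu_2pi]; exact f1 v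
  set a1 := cl α β x
  set b1 := cl α β y
  set a2 := cl β γ x
  set b2 := cl β γ y
  set a3 := cl γ δ x
  set b3 := cl γ δ y
  have m1 : a1 ≤ b1 := cl_mono _ _ _ _ hxy
  have m2 : a2 ≤ b2 := cl_mono _ _ _ _ hxy
  have m3 : a3 ≤ b3 := cl_mono _ _ _ _ hxy
  have l1 : α ≤ a1 := cl_ge _ _ _
  have l2 : β ≤ a2 := cl_ge _ _ _
  have l3 : γ ≤ a3 := cl_ge _ _ _
  have u1 : b1 ≤ β := cl_le _ _ _ h1
  have u2 : b2 ≤ γ := cl_le _ _ _ h2
  have u3 : b3 ≤ δ := cl_le _ _ _ h3
  -- first block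
  have g1 : gg P Q (l b1 - l a1) = P (l b1 - l a1) := by
    have k1 : dt (uu α) (l b1) ≤ dt (uu α) (l a1) :=
      mono_left l hsup α a1 b1 l1 m1 (by linarith)
    have k2 : dt (uu β) (l a1) ≤ dt (uu β) (l b1) :=
      mono_right l hsup β a1 b1 (by linarith) m1 u1
    have t1 : 0 ≤ P (l b1 - l a1) := by
      rw [f1, dt_sub]
      have := mul_nonneg hp (sub_nonneg.2 k1)
      linarith
    have t2 : Q (l b1 - l a1) ≤ P (l b1 - l a1) := by
      have := f2 (l b1 - l a1)
      rw [dt_sub] at this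
      have h := mul_nonneg hq (sub_nonneg.2 k2)
      linarith
    unfold gg
    rw [max_eq_left t2, max_eq_right t1]
  have g2 : gg P Q (l b2 - l a2) = Q (l b2 - l a2) := by
    have k1 : dt (uu β) (l b2) ≤ dt (uu β) (l a2) :=
      mono_left l hsup β a2 b2 l2 m2 (by linarith)
    have k2 : dt (uu γ) (l a2) ≤ dt (uu γ) (l b2) :=
      mono_right l hsup γ a2 b2 (by linarith) m2 u2
    have t1 : 0 ≤ Q (l b2 - l a2) := by
      rw [f3, dt_sub]
      have := mul_nonneg hr (sub_nonneg.2 k2)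
      linarith
    have t2 : P (l b2 - l a2) ≤ Q (l b2 - l a2) := by
      have := f2 (l b2 - l a2)
      rw [dt_sub] at this
      have h := mul_nonneg hq (sub_nonneg.2 k1)
      linarith
    unfold gg
    rw [max_eq_right t2, max_eq_right t1]
  have g3 : gg P Q (l b3 - l a3) = 0 := by
    have k1 : dt (uu γ) (l b3) ≤ dt (uu γ) (l a3) :=
      mono_left l hsup γ a3 b3 l3 m3 (by linarith)
    have k2 : dt (uu δ) (l a3) ≤ dt (uu δ) (l b3) :=
      mono_right l hsup δ a3 b3 (by linarith) m3 u3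
    have t1 : Q (l b3 - l a3) ≤ 0 := by
      rw [f3, dt_sub]
      have := mul_nonneg hr (sub_nonneg.2 k1)
      linarith
    have t2 : P (l b3 - l a3) ≤ 0 := by
      rw [f1', dt_sub]
      have := mul_nonneg hp (sub_nonneg.2 k2)
      linarith
    unfold gg
    rw [max_eq_left (max_le t2 t1)]
  have ex := tele l α β γ δ x h1 h2 h3 hx (by linarith)
  have ey := tele l α β γ δ y h1 h2 h3 (by linarith) hy
  have e : l y - l x = (l b1 - l a1) + (l b2 - l a2) + (l b3 - l a3) := by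
    rw [ex, ey]; abel
  rw [e]
  have s1 := gg_add P Q ((l b1 - l a1) + (l b2 - l a2)) (l b3 - l a3)
  have s2 := gg_add P Q (l b1 - l a1) (l b2 - l a2)
  rw [g3] at s1
  rw [g1, g2] at s2
  unfold pot
  simp only [map_sub] at s2
  linarith

/-- (j2): the test function on the closed polygon of a grid is at most the sum of the three
support bounds. -/
theorem gg_closed (P Q : (ℝ × ℝ) →ₗ[ℝ] ℝ) (hPQ : 0 < crs (vec P) (vec Q)) (l : ℝ → ℝ × ℝ)
    (hsup : ∀ x y, dt (uu x) (l y) ≤ dt (uu x) (l x)) (hl : ∀ x, l (x + 2 * π) = l x)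
    (N : ℕ) (th : ℤ → ℝ) (hmono : Monotone th) (hth : ∀ i, th (i + N) = th i + 2 * π)
    (al be ga : ℝ) (h1 : ∀ x, -P (l x) ≤ al) (h2 : ∀ x, P (l x) - Q (l x) ≤ be)
    (h3 : ∀ x, Q (l x) ≤ ga) :
    ∑ r ∈ range N, gg P Q (l (th (r + 1)) - l (th r)) ≤ al + be + ga := by
  obtain ⟨α, β, γ, p, q, r, hα1, hα2, k1, k2, k3, k4, k5, k6, hp, hq, hr, e1, e2, e3⟩ :=
    exists_angles (th 0) (vec (-P)) (vec (P - Q)) (vec Q)
      (by unfold vec; ext <;> simp <;> ring)
      (by
        have : crs (vec (-P)) (vec (P - Q)) = crs (vec P) (vec Q) := by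
          unfold crs vec
          simp only [LinearMap.neg_apply, LinearMap.sub_apply]
          ring
        rw [this]; exact hPQ)
  have pp := pi_pos
  have hpot : ∀ x y, α ≤ x → x ≤ y → y ≤ α + 2 * π →
      gg P Q (l y - l x) ≤ pot P Q l α β γ y - pot P Q l α β γ x := by
    intro x y hx hxy hy
    exact gg_le_pot P Q l hsup α β γ p q r k1.le k3.le k6.le k2.le k4.le k5.le hp.le hq.le hr.le
      e1 e2 e3 x y hx hxy hy
  -- the cell of `α`
  have thN : th N = th 0 + 2 * π := by have := hth 0; rwa [zero_add] at this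
  obtain ⟨j, hj1, hj2, hjN⟩ : ∃ j : ℕ, th j ≤ α ∧ α < th (j + 1) ∧ j < N := by
    by_contra hc
    push Not at hc
    have ind : ∀ j : ℕ, j ≤ N → th j ≤ α := by
      intro j
      induction j with
      | zero => intro _; simpa using hα1
      | succ j ih =>
        intro hj
        by_contra h'
        push Not at h'
        have := hc j (ih (by omega)) (by push_cast at h'; exact h')
        omega
    have := ind N le_rfl
    linarith
  have hN : 1 ≤ N := by omega
  obtain ⟨n, rfl⟩ : ∃ n, N = n + 1 := ⟨N - 1, by omega⟩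
  -- shift the window
  have hw := sum_window (fun i : ℤ => gg P Q (l (th (i + 1)) - l (th i))) (n + 1)
    (by
      intro i
      rw [show i + ((n + 1 : ℕ) : ℤ) + 1 = (i + 1) + ((n + 1 : ℕ) : ℤ) by ring, hth, hth, hl, hl])
    (j : ℤ)
  rw [← hw, Finset.sum_range_succ']
  -- the cell of `α`
  have c0 : gg P Q (l (th ((j : ℤ) + ((0 : ℕ) : ℤ) + 1)) - l (th ((j : ℤ) + ((0 : ℕ) : ℤ)))) ≤
      (pot P Q l α β γ (th (j + 1)) - pot P Q l α β γ α) +
      (pot P Q l α β γ (α + 2 * π) - pot P Q l α β γ (th (j + (n + 1 : ℕ)))) := by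
    have hE : th ((j : ℤ) + (n + 1 : ℕ)) = th j + 2 * π := hth j
    have s := gg_add P Q (l (th (j + 1)) - l α) (l α - l (th j))
    have t1 := hpot α (th (j + 1)) le_rfl hj2.le (by
      have : th (j + 1) ≤ th (j + (n + 1 : ℕ)) := hmono (by push_cast; omega)
      rw [hE] at this
      linarith)
    have t2 := hpot (th j + 2 * π) (α + 2 * π) (by
      have : th (j + 1) ≤ th (j + (n + 1 : ℕ)) := hmono (by push_cast; omega)
      rw [hE] at this
      linarith) (by linarith) le_rfl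
    rw [hl, hl] at t2
    rw [hE]
    have e : l (th (j + 1)) - l α + (l α - l (th j)) = l (th (j + 1)) - l (th j) := by abel
    rw [e] at s
    simp only [Nat.cast_zero, add_zero]
    linarith
  -- the other cells
  have c1 : ∑ k ∈ range n, gg P Q (l (th ((j : ℤ) + ((k + 1 : ℕ) : ℤ) + 1)) -
      l (th ((j : ℤ) + ((k + 1 : ℕ) : ℤ)))) ≤
      pot P Q l α β γ (th (j + (n + 1 : ℕ))) - pot P Q l α β γ (th (j + 1)) := by
    have hs : ∀ k ∈ range n, gg P Q (l (th ((j : ℤ) + ((k + 1 : ℕ) : ℤ) + 1)) -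
        l (th ((j : ℤ) + ((k + 1 : ℕ) : ℤ)))) ≤
        (fun m : ℕ => pot P Q l α β γ (th ((j : ℤ) + ((m + 1 : ℕ) : ℤ)))) (k + 1) -
        (fun m : ℕ => pot P Q l α β γ (th ((j : ℤ) + ((m + 1 : ℕ) : ℤ)))) k := by
      intro k hk
      have hk' := Finset.mem_range.1 hk
      have e : ((j : ℤ) + ((k + 1 : ℕ) : ℤ) + 1) = (j : ℤ) + ((k + 1 + 1 : ℕ) : ℤ) := by
        push_cast; ring
      rw [e]
      apply hpot
      · have : th (j + 1) ≤ th ((j : ℤ) + ((k + 1 : ℕ) : ℤ)) := hmono (by push_cast; omega)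
        linarith
      · exact hmono (by push_cast; omega)
      · have h : th ((j : ℤ) + ((k + 1 + 1 : ℕ) : ℤ)) ≤ th ((j : ℤ) + ((n + 1 : ℕ) : ℤ)) :=
          hmono (by push_cast; omega)
        rw [hth] at h
        linarith
    have ht := Finset.sum_range_sub
      (fun m : ℕ => pot P Q l α β γ (th ((j : ℤ) + ((m + 1 : ℕ) : ℤ)))) n
    have h := Finset.sum_le_sum hs
    rw [ht] at h
    simp only [zero_add, Nat.cast_one] at h
    exact h
  have hT : pot P Q l α β γ (α + 2 * π) - pot P Q l α β γ α ≤ al + be + ga := by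
    unfold pot
    rw [cl_of_ge α β _ k1.le (by linarith), cl_of_ge β γ _ k3.le (by linarith),
      cl_of_le α β _ k1.le le_rfl, cl_of_le β γ _ k3.le (by linarith)]
    have := h1 α
    have := h2 β
    have := h3 γ
    linarith
  linarith

/-- the value of the test function on a chain of increments -/
lemma arc_ge (P Q : (ℝ × ℝ) →ₗ[ℝ] ℝ) (x : ℤ → ℝ × ℝ) (a : ℤ) (m n : ℕ) :
    P (x (a + m) - x a) + Q (x (a + m + n) - x (a + m)) ≤
      ∑ k ∈ range (m + n), gg P Q (x (a + k + 1) - x (a + k)) := by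
  have tel : ∀ (R : (ℝ × ℝ) →ₗ[ℝ] ℝ) (u : ℤ) (w : ℕ),
      (∀ v, R v ≤ gg P Q v) →
      R (x (u + w) - x u) ≤ ∑ k ∈ range w, gg P Q (x (u + k + 1) - x (u + k)) := by
    intro R u w hR
    induction w with
    | zero => simp
    | succ w ih =>
      rw [Finset.sum_range_succ]
      have := hR (x (u + w + 1) - x (u + w))
      push_cast
      rw [← add_assoc]
      simp only [map_sub] at this ih ⊢
      linarith
  have h1 := tel P a m (fun v => (le_max_left _ _).trans (le_max_right _ _))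
  have h2 := tel Q (a + m) n (fun v => (le_max_right _ _).trans (le_max_right _ _))
  rw [Finset.sum_range_add]
  have h3 : ∑ k ∈ range n, gg P Q (x (a + ((m + k : ℕ) : ℤ) + 1) - x (a + ((m + k : ℕ) : ℤ))) =
      ∑ k ∈ range n, gg P Q (x (a + m + k + 1) - x (a + m + k)) := by
    apply Finset.sum_congr rfl
    intro k _
    rw [show a + ((m + k : ℕ) : ℤ) = a + m + k by push_cast; ring]
  rw [h3]
  linarith

end H54ZJ
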